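import Pool.Agent.TH316.AT.Ex
import Pool.Agent.TH879.AT.Cmp
import Pool.Agent.TH148.AT.MAX

/-!
# The gradient bound for the truncated Parisi equation
-/

set_option autoImplicit false

open MeasureTheory ProbabilityTheory Set Filter Topology

namespace Pool.TH367.AT

open Pool.TH198.AT Pool.TH316.AT
open Pool.TH879.AT (zeta_int sec_cont cont_of_lip sh)

theorem hub_eq (u : ℝ) : hub u = min |u| 1 ^ 2 + 2 * (|u| - min |u| 1) := by
  unfold hub
  split_ifs with h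
  · rw [min_eq_left h, sq_abs]
    ring
  · rw [min_eq_right (not_le.1 h).le]
    ring

theorem hub_cont : Continuous hub := by
  have h : hub = fun u => min |u| 1 ^ 2 + 2 * (|u| - min |u| 1) := funext hub_eq
  rw [h]
  fun_prop

theorem hub_aux {a b : ℝ} (hb : 0 ≤ b) (hab : b ≤ a) :
    0 ≤ (min a 1 ^ 2 + 2 * (a - min a 1)) - (min b 1 ^ 2 + 2 * (b - min b 1)) ∧
    (min a 1 ^ 2 + 2 * (a - min a 1)) - (min b 1 ^ 2 + 2 * (b - min b 1)) ≤ 2 * (a - b) := by
  rcases le_total a 1 with h1 | h1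
  · rw [min_eq_left h1, min_eq_left (hab.trans h1)]
    constructor <;> nlinarith
  · rcases le_total b 1 with h2 | h2
    · rw [min_eq_right h1, min_eq_left h2]
      constructor <;> nlinarith [sq_nonneg (1 - b)]
    · rw [min_eq_right h1, min_eq_right h2]
      constructor <;> nlinarith

theorem hub_lip (u v : ℝ) : |hub u - hub v| ≤ 2 * |u - v| := by
  rw [hub_eq, hub_eq]
  rcases le_total |v| |u| with h | h
  · obtain ⟨h1, h2⟩ := hub_aux (abs_nonneg v) h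
    rw [abs_of_nonneg h1]
    have := abs_sub_abs_le_abs_sub u v
    linarith
  · obtain ⟨h1, h2⟩ := hub_aux (abs_nonneg u) h
    rw [abs_sub_comm, abs_of_nonneg h1, abs_sub_comm]
    have := abs_sub_abs_le_abs_sub v u
    linarith

theorem hub_bd {u C : ℝ} (h : |u| ≤ C) : |hub u| ≤ 2 * C := by
  have h1 := hub_lip u 0
  have h2 : hub 0 = 0 := by
    unfold hub
    simp
  rw [h2, sub_zero, sub_zero] at h1
  linarith

/-- the integrand -/
noncomputable def gh (β : ℝ) (ζ : ℝ → ℝ) (Z H : ℝ → ℝ → ℝ) (x r : ℝ) : ℝ :=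
  β ^ 2 * (Z r x + ζ r * H r x)

section

variable {β : ℝ} {ζ : ℝ → ℝ} {f Z H : ℝ → ℝ → ℝ} {C M : ℝ}

lemma gh_int (hζ : IsCdf ζ)
    (hcx : ContinuousOn (fun p : ℝ × ℝ => H p.1 p.2) (Icc 0 1 ×ˢ univ))
    (hcxx : ContinuousOn (fun p : ℝ × ℝ => Z p.1 p.2) (Icc 0 1 ×ˢ univ))
    {a b : ℝ} (ha : a ∈ Icc (0 : ℝ) 1) (hb : b ∈ Icc (0 : ℝ) 1) (x : ℝ) :
    IntervalIntegrable (gh β ζ Z H x) volume a b := by
  have hsub := uIcc_subset_Icc ha hb
  have h1 : IntervalIntegrable (fun r => Z r x) volume a b :=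
    ((sec_cont hcxx x).mono hsub).intervalIntegrable
  have h2 : IntervalIntegrable (fun r => ζ r * H r x) volume a b :=
    (zeta_int hζ ha hb).mul_continuousOn ((sec_cont hcx x).mono hsub)
  exact (h1.add h2).const_mul (β ^ 2)

lemma gh_bd (hζ : IsCdf ζ) (hZ : ∀ t x, |Z t x| ≤ M) (hH : ∀ t x, |H t x| ≤ M)
    {r : ℝ} (hr : r ∈ Icc (0 : ℝ) 1) (x : ℝ) : |gh β ζ Z H x r| ≤ β ^ 2 * (M + M) := by
  unfold gh
  obtain ⟨h3, h4⟩ := hζ.2.1 r hr
  rw [abs_mul, abs_of_nonneg (sq_nonneg β)]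
  have h6 : |ζ r * H r x| ≤ M := by
    rw [abs_mul, abs_of_nonneg h3]
    have := hH r x
    nlinarith [abs_nonneg (H r x)]
  have h7 := abs_add_le (Z r x) (ζ r * H r x)
  have h8 := hZ r x
  exact mul_le_mul_of_nonneg_left (by linarith) (sq_nonneg β)

lemma h_sub (hζ : IsCdf ζ)
    (hcx : ContinuousOn (fun p : ℝ × ℝ => H p.1 p.2) (Icc 0 1 ×ˢ univ))
    (hcxx : ContinuousOn (fun p : ℝ × ℝ => Z p.1 p.2) (Icc 0 1 ×ˢ univ))
    (hint : ∀ t ∈ Icc (0 : ℝ) 1, ∀ x, f t x =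
      Real.log (Real.cosh x) + ∫ r in t..1, β ^ 2 * (Z r x + ζ r * H r x))
    {s t : ℝ} (hs : s ∈ Icc (0 : ℝ) 1) (ht : t ∈ Icc (0 : ℝ) 1) (x : ℝ) :
    f s x - f t x = ∫ r in s..t, gh β ζ Z H x r := by
  have h1 : (1 : ℝ) ∈ Icc (0 : ℝ) 1 := ⟨zero_le_one, le_rfl⟩
  have h2 := intervalIntegral.integral_add_adjacent_intervals
    (gh_int (β := β) hζ hcx hcxx hs ht x) (gh_int (β := β) hζ hcx hcxx ht h1 x)
  have h3 := hint s hs x
  have h4 := hint t ht x
  change f s x = Real.log (Real.cosh x) + ∫ r in s..1, gh β ζ Z H x r at h3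
  change f t x = Real.log (Real.cosh x) + ∫ r in t..1, gh β ζ Z H x r at h4
  rw [h3, h4, ← h2]
  ring

lemma h_lip_t (hζ : IsCdf ζ)
    (hcx : ContinuousOn (fun p : ℝ × ℝ => H p.1 p.2) (Icc 0 1 ×ˢ univ))
    (hcxx : ContinuousOn (fun p : ℝ × ℝ => Z p.1 p.2) (Icc 0 1 ×ˢ univ))
    (hZ : ∀ t x, |Z t x| ≤ M) (hH : ∀ t x, |H t x| ≤ M)
    (hint : ∀ t ∈ Icc (0 : ℝ) 1, ∀ x, f t x =
      Real.log (Real.cosh x) + ∫ r in t..1, β ^ 2 * (Z r x + ζ r * H r x))
    {s t : ℝ} (hs : s ∈ Icc (0 : ℝ) 1) (ht : t ∈ Icc (0 : ℝ) 1) (x : ℝ) :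
    |f s x - f t x| ≤ β ^ 2 * (M + M) * |t - s| := by
  rw [h_sub hζ hcx hcxx hint hs ht x, ← Real.norm_eq_abs]
  refine intervalIntegral.norm_integral_le_of_norm_le_const fun r hr => ?_
  rw [Real.norm_eq_abs]
  exact gh_bd hζ hZ hH (uIcc_subset_Icc hs ht (uIoc_subset_uIcc hr)) x

lemma h_rderiv (hζ : IsCdf ζ)
    (hcx : ContinuousOn (fun p : ℝ × ℝ => H p.1 p.2) (Icc 0 1 ×ˢ univ))
    (hcxx : ContinuousOn (fun p : ℝ × ℝ => Z p.1 p.2) (Icc 0 1 ×ˢ univ))
    (hint : ∀ t ∈ Icc (0 : ℝ) 1, ∀ x, f t x =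
      Real.log (Real.cosh x) + ∫ r in t..1, β ^ 2 * (Z r x + ζ r * H r x))
    {t : ℝ} (ht : t ∈ Ico (0 : ℝ) 1) (x : ℝ) :
    HasDerivWithinAt (fun τ => f τ x) (-(β ^ 2 * (Z t x + ζ t * H t x))) (Ici t) t := by
  have h1 : (1 : ℝ) ∈ Icc (0 : ℝ) 1 := ⟨zero_le_one, le_rfl⟩
  have ht' : t ∈ Icc (0 : ℝ) 1 := ⟨ht.1, ht.2.le⟩
  have hi := gh_int (β := β) hζ hcx hcxx ht' h1 x
  have hsub : Icc t 1 ⊆ Icc (0 : ℝ) 1 := Icc_subset_Icc ht.1 le_rfl
  have hmem : Icc t 1 ∈ 𝓝[≥] t := Icc_mem_nhdsGE ht.2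
  have hc : ContinuousWithinAt (gh β ζ Z H x) (Ici t) t := by
    have e1 : ContinuousWithinAt (fun r => Z r x) (Ici t) t :=
      (((sec_cont hcxx x).mono hsub) t ⟨le_rfl, ht.2.le⟩).mono_of_mem_nhdsWithin hmem
    have e2 : ContinuousWithinAt (fun r => H r x) (Ici t) t :=
      (((sec_cont hcx x).mono hsub) t ⟨le_rfl, ht.2.le⟩).mono_of_mem_nhdsWithin hmem
    exact continuousWithinAt_const.mul (e1.add ((hζ.2.2.2 t ht).mul e2))
  have hmeas : StronglyMeasurableAtFilter (gh β ζ Z H x) (𝓝[>] t) volume := by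
    refine ⟨Ioc t 1, Ioc_mem_nhdsGT ht.2, ?_⟩
    exact hi.1.aestronglyMeasurable
  have hd2 : HasDerivWithinAt (fun u => ∫ r in u..1, gh β ζ Z H x r)
      (-gh β ζ Z H x t) (Ici t) t :=
    intervalIntegral.integral_hasDerivWithinAt_left hi hmeas (hc.mono Ioi_subset_Ici_self)
  have hd3 := hd2.const_add (Real.log (Real.cosh x))
  refine hd3.congr_of_eventuallyEq ?_ (hint t ht' x)
  filter_upwards [hmem] with τ hτ
  exact hint τ (hsub hτ) x

end

theorem lc_lip (x y : ℝ) : |Real.log (Real.cosh y) - Real.log (Real.cosh x)| ≤ 1 * |y - x| := by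
  refine (convex_univ : Convex ℝ (univ : Set ℝ)).norm_image_sub_le_of_norm_hasDerivWithin_le
    (f := fun x => Real.log (Real.cosh x)) (f' := fun x => Real.sinh x / Real.cosh x) (C := 1)
    (fun u _ => ((Real.hasDerivAt_cosh u).log (Real.cosh_pos u).ne').hasDerivWithinAt)
    (fun u _ => ?_) (mem_univ x) (mem_univ y)
  rw [Real.norm_eq_abs, abs_div, abs_of_pos (Real.cosh_pos u), div_le_one (Real.cosh_pos u), abs_le]
  have h1 := Real.sinh_lt_cosh u
  have h2 := Real.sinh_lt_cosh (-u)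
  rw [Real.sinh_neg, Real.cosh_neg] at h2
  constructor <;> linarith

/-- the quotient -/
noncomputable def qt (a b : ℝ) : ℝ := if a - b = 0 then 0 else (hub a - hub b) / (a - b)

theorem qt_mul (a b : ℝ) : qt a b * (a - b) = hub a - hub b := by
  unfold qt
  split_ifs with h
  · have h1 : a = b := by linarith
    rw [h1, zero_mul, sub_self]
  · rw [div_mul_cancel₀ _ h]

theorem qt_le (a b : ℝ) : |qt a b| ≤ 2 := by
  unfold qt
  split_ifs with h
  · rw [abs_zero]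
    norm_num
  · rw [abs_div, div_le_iff₀ (abs_pos.2 h)]
    exact hub_lip a b

/-- the difference quotients are bounded by one -/
theorem mx_aux {β C : ℝ} {ζ : ℝ → ℝ} {f W Z : ℝ → ℝ → ℝ} (hβ : 0 < β) (hζ : IsCdf ζ)
    (hd : ∀ t ∈ Icc (0 : ℝ) 1, ∀ x, HasDerivAt (f t) (W t x) x ∧ HasDerivAt (W t) (Z t x) x)
    (hW : BC C W) (hZ : BC C Z)
    (hint : ∀ t ∈ Icc (0 : ℝ) 1, ∀ x, f t x =
      Real.log (Real.cosh x) + ∫ r in t..1, β ^ 2 * (Z r x + ζ r * hub (W r x)))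
    {σ : ℝ} (hσ : |σ| = 1) {h : ℝ} (hh : 0 < h) :
    ∀ t ∈ Icc (0 : ℝ) 1, ∀ x, 0 ≤ h - σ * (f t (x + h) - f t x) := by
  have hC : 0 ≤ C := (abs_nonneg _).trans (hW.2 0 0)
  have hβ2 : 0 < β ^ 2 := by positivity
  have hH : ∀ t x, |hub (W t x)| ≤ 2 * C := fun t x => hub_bd (hW.2 t x)
  have hZ2 : ∀ t x, |Z t x| ≤ 2 * C := fun t x => (hZ.2 t x).trans (by linarith)
  have hcW : ContinuousOn (fun p : ℝ × ℝ => hub (W p.1 p.2)) (Icc 0 1 ×ˢ univ) :=
    (hub_cont.comp hW.1).continuousOn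
  have hcZ : ContinuousOn (fun p : ℝ × ℝ => Z p.1 p.2) (Icc 0 1 ×ˢ univ) := hZ.1.continuousOn
  have hlx : ∀ t ∈ Icc (0 : ℝ) 1, ∀ x y, |f t y - f t x| ≤ C * |y - x| := by
    intro t ht x y
    exact (convex_univ : Convex ℝ (univ : Set ℝ)).norm_image_sub_le_of_norm_hasDerivWithin_le
      (f := f t) (f' := W t) (C := C) (fun u _ => (hd t ht u).1.hasDerivWithinAt)
      (fun u _ => hW.2 t u) (mem_univ x) (mem_univ y)
  have fc : ContinuousOn (fun p : ℝ × ℝ => f p.1 p.2) (Icc 0 1 ×ˢ univ) :=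
    cont_of_lip (M := β ^ 2 * (2 * C + 2 * C)) (N := C) (by positivity) hC
      (fun t ht t' ht' x => h_lip_t (H := fun t x => hub (W t x)) hζ hcW hcZ hZ2 hH hint ht ht' x)
      hlx
  have ft : ∀ t ∈ Ico (0 : ℝ) 1, ∀ x, HasDerivWithinAt (fun τ => f τ x)
      (-(β ^ 2 * (Z t x + ζ t * hub (W t x)))) (Ici t) t := fun t ht x =>
    h_rderiv (H := fun t x => hub (W t x)) hζ hcW hcZ hint ht x
  have hf1 : ∀ x, f 1 x = Real.log (Real.cosh x) := by
    intro x
    rw [hint 1 ⟨zero_le_one, le_rfl⟩ x, intervalIntegral.integral_same, add_zero]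
  have hmap1 : Continuous fun p : ℝ × ℝ × ℝ => ((p.1, p.2.1) : ℝ × ℝ) := by fun_prop
  have hmap2 : Continuous fun p : ℝ × ℝ × ℝ => ((p.1, p.2.1 + h) : ℝ × ℝ) := by fun_prop
  have key := Pool.TH148.AT.t_MAX (2 * β ^ 2) 0 1 (2 * β ^ 2 + C * h)
    (fun t x _ => h - σ * (f t (x + h) - f t x))
    (fun t x _ => -(σ * (-(β ^ 2 * (Z t (x + h) + ζ t * hub (W t (x + h)))) -
      -(β ^ 2 * (Z t x + ζ t * hub (W t x))))))
    (fun t x _ => -(σ * (W t (x + h) - W t x))) (fun t x _ => -(σ * (Z t (x + h) - Z t x)))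
    (fun t x _ => -(σ * (W t (x + h) - W t x))) (fun _ _ _ => 0)
    (fun t x _ => β ^ 2 * ζ t * qt (W t (x + h)) (W t x)) (fun _ _ _ => 0)
    (by positivity) zero_le_one
    (continuousOn_const.sub (continuousOn_const.mul
      ((fc.comp hmap2.continuousOn (fun p hp => ⟨hp.1, mem_univ _⟩)).sub
        (fc.comp hmap1.continuousOn (fun p hp => ⟨hp.1, mem_univ _⟩))))) ?_ ?_ ?_
  · intro t ht x
    exact key t ht x 0
  · intro t ht x y
    have ht' : t ∈ Icc (0 : ℝ) 1 := ⟨ht.1, ht.2.le⟩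
    have hz := hζ.2.1 t ht'
    have hd1 : ∀ x, HasDerivAt (fun u => h - σ * (f t (u + h) - f t u))
        (-(σ * (W t (x + h) - W t x))) x := by
      intro x
      exact (((((hd t ht' (x + h)).1).comp_add_const x h).sub (hd t ht' x).1).const_mul σ).const_sub h
    have hd2 : ∀ x, HasDerivAt (fun u => -(σ * (W t (u + h) - W t u)))
        (-(σ * (Z t (x + h) - Z t x))) x := by
      intro x
      exact (((((hd t ht' (x + h)).2).comp_add_const x h).sub (hd t ht' x).2).const_mul σ).neg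
    refine ⟨(((ft t ht (x + h)).sub (ft t ht x)).const_mul σ).const_sub h, sh (hd1 x), sh (hd2 x),
      hd1 x, hasDerivAt_const _ _, ?_, ?_, ?_⟩
    · have h1 := qt_le (W t (x + h)) (W t x)
      have h2 : |ζ t| ≤ 1 := abs_le.2 ⟨by linarith [hz.1], hz.2⟩
      rw [abs_mul, abs_mul, abs_of_pos hβ2]
      calc β ^ 2 * |ζ t| * |qt (W t (x + h)) (W t x)| ≤ β ^ 2 * 1 * 2 := by
            apply mul_le_mul _ h1 (abs_nonneg _) (by positivity)
            exact mul_le_mul_of_nonneg_left h2 hβ2.le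
        _ ≤ 2 * β ^ 2 + C * h := by
            have : 0 ≤ C * h := by positivity
            linarith
    · rw [abs_zero]
      positivity
    · apply le_of_eq
      have h1 := qt_mul (W t (x + h)) (W t x)
      have h2 : β ^ 2 * ζ t * qt (W t (x + h)) (W t x) * -(σ * (W t (x + h) - W t x)) =
          -(β ^ 2 * ζ t * σ * (hub (W t (x + h)) - hub (W t x))) := by
        rw [← h1]
        ring
      rw [h2]
      ring
  · intro x y
    rw [hf1, hf1]
    have h1 := lc_lip x (x + h)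
    rw [add_sub_cancel_left, abs_of_pos hh, one_mul] at h1
    have h2 : |σ * (Real.log (Real.cosh (x + h)) - Real.log (Real.cosh x))| ≤ h := by
      rw [abs_mul, hσ, one_mul]
      exact h1
    linarith [(abs_le.1 h2).2]
  · intro t ht x y
    have h1 := hlx t ht x (x + h)
    rw [add_sub_cancel_left, abs_of_pos hh] at h1
    have h2 : |σ * (f t (x + h) - f t x)| ≤ C * h := by
      rw [abs_mul, hσ, one_mul]
      exact h1
    have h3 := (abs_le.1 h2).2
    have h4 : (2 * β ^ 2 + C * h) * 1 ≤ (2 * β ^ 2 + C * h) * (1 + |x| + |y|) := by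
      apply mul_le_mul_of_nonneg_left _ (by positivity)
      linarith [abs_nonneg x, abs_nonneg y]
    nlinarith

/-- the gradient bound -/
theorem t_MX : St_MX := by
  intro β C ζ f W Z hβ hζ hd hW hZ hint t ht x
  have hstep : ∀ x h : ℝ, 0 < h → |f t (x + h) - f t x| ≤ h := by
    intro x h hh
    have h1 := mx_aux hβ hζ hd hW hZ hint (σ := 1) (by norm_num) hh t ht x
    have h2 := mx_aux hβ hζ hd hW hZ hint (σ := -1) (by norm_num) hh t ht x
    rw [abs_le]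
    constructor <;> linarith
  have hlip : ∀ y, ‖f t y - f t x‖ ≤ 1 * ‖y - x‖ := by
    intro y
    rw [Real.norm_eq_abs, Real.norm_eq_abs, one_mul]
    rcases lt_trichotomy x y with h | h | h
    · have h1 := hstep x (y - x) (by linarith)
      rw [add_sub_cancel] at h1
      rwa [abs_of_pos (show 0 < y - x by linarith)]
    · rw [h]
      simp
    · have h1 := hstep y (x - y) (by linarith)
      rw [add_sub_cancel] at h1
      rw [abs_sub_comm, abs_of_neg (show y - x < 0 by linarith), neg_sub]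
      exact h1
  have h1 := (hd t ht x).1.le_of_lip' zero_le_one (Filter.Eventually.of_forall hlip)
  rwa [Real.norm_eq_abs] at h1

end Pool.TH367.AT
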