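import Pool.Agent.TH198.AT.Conv
import Pool.Agent.TH231.AT.Fpart
import Pool.Agent.TH862.AT.LEIB
import Pool.Agent.TH148.AT.MAX

/-!
# Uniqueness of the solution of the Parisi equation
-/

set_option autoImplicit false

open MeasureTheory ProbabilityTheory Set Filter Topology

namespace Pool.TH367.AT

open Pool.TH198.AT

/-- shift of the argument -/
theorem shift0 {F : ℝ → ℝ} {F' x : ℝ} (h : HasDerivAt F F' x) :
    HasDerivAt (fun u => F (x + u)) F' 0 := by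
  have h1 : HasDerivAt F F' (x + 0) := by rwa [add_zero]
  exact h1.comp_const_add x 0

/-- one half of the uniqueness -/
theorem le_of (β : ℝ) (ζ : ℝ → ℝ) (f g : ℝ → ℝ → ℝ) (hβ : 0 < β) (hζ : IsCdf ζ)
    (hf : IsParisi β ζ f) (hg : IsParisi β ζ g) :
    ∀ t ∈ Icc (0 : ℝ) 1, ∀ x, 0 ≤ f t x - g t x := by
  obtain ⟨fx, fxx, C1, hC1, fd, ft, fc, fb, fxb⟩ := Pool.TH231.AT.f_part Pool.TH862.AT.t_LEIB hζ hf
  obtain ⟨gx, gxx, C2, hC2, gd, gt, gc, gb, gxb⟩ := Pool.TH231.AT.f_part Pool.TH862.AT.t_LEIB hζ hg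
  have hf1 : ∀ x, f 1 x = Real.log (Real.cosh x) := by
    intro x
    obtain ⟨_, _, _, _, _, _, h⟩ := hf
    rw [h 1 ⟨zero_le_one, le_rfl⟩ x, intervalIntegral.integral_same, add_zero]
  have hg1 : ∀ x, g 1 x = Real.log (Real.cosh x) := by
    intro x
    obtain ⟨_, _, _, _, _, _, h⟩ := hg
    rw [h 1 ⟨zero_le_one, le_rfl⟩ x, intervalIntegral.integral_same, add_zero]
  have hβ2 : 0 < β ^ 2 := by positivity
  have hC : 0 ≤ C1 + C2 := add_nonneg hC1 hC2
  have hmap : Continuous fun p : ℝ × ℝ × ℝ => ((p.1, p.2.1) : ℝ × ℝ) := by fun_prop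
  have hmapsto : MapsTo (fun p : ℝ × ℝ × ℝ => ((p.1, p.2.1) : ℝ × ℝ))
      (Icc (0 : ℝ) 1 ×ˢ univ) (Icc (0 : ℝ) 1 ×ˢ univ) := by
    rintro p ⟨hp, -⟩
    exact ⟨hp, mem_univ _⟩
  have key := Pool.TH148.AT.t_MAX (2 * β ^ 2) 0 1 ((β ^ 2 + 1) * (C1 + C2))
    (fun t x _ => f t x - g t x)
    (fun t x _ => -(β ^ 2 * (fxx t x + ζ t * fx t x ^ 2)) -
      -(β ^ 2 * (gxx t x + ζ t * gx t x ^ 2)))
    (fun t x _ => fx t x - gx t x) (fun t x _ => fxx t x - gxx t x)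
    (fun t x _ => fx t x - gx t x) (fun _ _ _ => 0)
    (fun t x _ => β ^ 2 * ζ t * (fx t x + gx t x)) (fun _ _ _ => 0)
    (by positivity) zero_le_one
    ((fc.comp hmap.continuousOn hmapsto).sub (gc.comp hmap.continuousOn hmapsto)) ?_ ?_ ?_
  · intro t ht x
    exact key t ht x 0
  · intro t ht x y
    have ht' : t ∈ Icc (0 : ℝ) 1 := ⟨ht.1, ht.2.le⟩
    have hz := hζ.2.1 t ht'
    refine ⟨(ft t ht x).sub (gt t ht x), (shift0 (fd t ht' x).1).sub (shift0 (gd t ht' x).1),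
      (shift0 (fd t ht' x).2).sub (shift0 (gd t ht' x).2), (fd t ht' x).1.sub (gd t ht' x).1,
      hasDerivAt_const _ _, ?_, ?_, ?_⟩
    · have h1 : |fx t x + gx t x| ≤ C1 + C2 :=
        (abs_add_le _ _).trans (add_le_add (fxb t ht' x) (gxb t ht' x))
      have h2 : |ζ t| ≤ 1 := abs_le.2 ⟨by linarith [hz.1], hz.2⟩
      rw [abs_mul, abs_mul, abs_of_pos hβ2]
      calc β ^ 2 * |ζ t| * |fx t x + gx t x| ≤ β ^ 2 * 1 * (C1 + C2) := by
            apply mul_le_mul _ h1 (abs_nonneg _) (by positivity)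
            exact mul_le_mul_of_nonneg_left h2 hβ2.le
        _ ≤ (β ^ 2 + 1) * (C1 + C2) := by nlinarith
    · rw [abs_zero]
      positivity
    · apply le_of_eq
      ring
  · intro x y
    rw [hf1, hg1, sub_self]
  · intro t ht x y
    have h1 := (abs_le.1 (fb t ht x)).1
    have h2 := (abs_le.1 (gb t ht x)).2
    have h3 : (C1 + C2) * (1 + |x|) ≤ (β ^ 2 + 1) * (C1 + C2) * (1 + |x| + |y|) := by
      have h4 : (C1 + C2) ≤ (β ^ 2 + 1) * (C1 + C2) := by nlinarith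
      have h5 : 1 + |x| ≤ 1 + |x| + |y| := by linarith [abs_nonneg y]
      exact mul_le_mul h4 h5 (by positivity) (by positivity)
    nlinarith

/-- uniqueness of the solution of the Parisi equation -/
theorem t_UNIQ : St_UNIQ := by
  intro β ζ f g hβ hζ hf hg t ht x
  have h1 := le_of β ζ f g hβ hζ hf hg t ht x
  have h2 := le_of β ζ g f hβ hζ hg hf t ht x
  linarith

end Pool.TH367.AT
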