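import Pool.Agent.TH198.AT.Exist
import Pool.Agent.TH367.AT.MX

/-!
# The gradient bound for the truncated Parisi equation, second form
-/

set_option autoImplicit false

open MeasureTheory ProbabilityTheory Set Filter Topology

namespace Pool.TH367.AT

open Pool.TH198.AT

theorem psi_hub (u : ℝ) : psi u = Pool.TH316.AT.hub u := rfl

theorem ck_mem (t : ℝ) : Pool.TH316.AT.ck t ∈ Icc (0 : ℝ) 1 :=
  ⟨le_max_left _ _, max_le zero_le_one (min_le_right _ _)⟩

theorem ck_eq {t : ℝ} (ht : t ∈ Icc (0 : ℝ) 1) : Pool.TH316.AT.ck t = t := by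
  unfold Pool.TH316.AT.ck
  rw [min_eq_left ht.2, max_eq_right ht.1]

theorem ck_cont : Continuous Pool.TH316.AT.ck := by
  unfold Pool.TH316.AT.ck
  fun_prop

theorem t_EXD : St_EXD := by
  intro β ζ f v w hβ hζ hf t ht x
  obtain ⟨hd, hcv, hcw, ⟨C, hC⟩, hint⟩ := hf
  have hmap : Continuous fun p : ℝ × ℝ => ((Pool.TH316.AT.ck p.1, p.2) : ℝ × ℝ) :=
    (ck_cont.comp continuous_fst).prodMk continuous_snd
  have hmem : ∀ p : ℝ × ℝ, ((Pool.TH316.AT.ck p.1, p.2) : ℝ × ℝ) ∈ Icc (0 : ℝ) 1 ×ˢ (univ : Set ℝ) :=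
    fun p => ⟨ck_mem p.1, mem_univ _⟩
  have hW : Pool.TH316.AT.BC C (fun t x => v (Pool.TH316.AT.ck t) x) :=
    ⟨hcv.comp_continuous hmap hmem, fun t x => (hC _ (ck_mem t) x).1⟩
  have hZ : Pool.TH316.AT.BC C (fun t x => w (Pool.TH316.AT.ck t) x) :=
    ⟨hcw.comp_continuous hmap hmem, fun t x => (hC _ (ck_mem t) x).2⟩
  have key := t_MX β C ζ f (fun t x => v (Pool.TH316.AT.ck t) x)
    (fun t x => w (Pool.TH316.AT.ck t) x) hβ hζ
    (fun t ht x => by
      have h := hd t ht x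
      simp only [ck_eq ht]
      exact h) hW hZ
    (fun t ht x => by
      rw [hint t ht x]
      congr 1
      refine intervalIntegral.integral_congr fun r hr => ?_
      rw [uIcc_of_le ht.2] at hr
      have hr' : r ∈ Icc (0 : ℝ) 1 := ⟨ht.1.trans hr.1, hr.2⟩
      simp only [ck_eq hr', psi_hub]) t ht x
  simp only [ck_eq ht] at key
  exact key

end Pool.TH367.AT
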